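import Mathlib

/-!
# Homomorphisms between Galois modules without common eigenvalues, sets of density zero
-/

set_option autoImplicit false

open Matrix Polynomial Filter Topology

namespace Pool.Agent.X274.TH

/-- No common `k`-th powers of eigenvalues: a matrix which intertwines the `k`-th powers is zero. -/
theorem hom_zero {F L : Type} [Field F] [Field L] [Algebra F L] [IsAlgClosed L] {m n : ℕ}
    (A : Matrix (Fin m) (Fin m) F) (B : Matrix (Fin n) (Fin n) F) (k : ℕ)
    (h : ∀ x y : L, aeval x A.charpoly = 0 → aeval y B.charpoly = 0 → x ^ k ≠ y ^ k)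
    (Z : Matrix (Fin n) (Fin m) F) (hZ : Z * A ^ k = B ^ k * Z) : Z = 0 := by
  classical
  set f : F →+* L := algebraMap F L with hf
  set A' : Matrix (Fin m) (Fin m) L := A.map f with hA'
  set B' : Matrix (Fin n) (Fin n) L := B.map f with hB'
  set Z' : Matrix (Fin n) (Fin m) L := Z.map f with hZ'
  have hAk : A' ^ k = (A ^ k).map f := by
    have := map_pow (f.mapMatrix (m := Fin m)) A k
    simpa [RingHom.mapMatrix_apply] using this.symm
  have hBk : B' ^ k = (B ^ k).map f := by
    have := map_pow (f.mapMatrix (m := Fin n)) B k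
    simpa [RingHom.mapMatrix_apply] using this.symm
  have hZk : Z' * A' ^ k = B' ^ k * Z' := by
    rw [hAk, hBk, hZ', ← Matrix.map_mul, ← Matrix.map_mul, hZ]
  have hcA : A'.charpoly = A.charpoly.map f := by
    rw [hA', Matrix.charpoly_map]
  have hcB : B'.charpoly = B.charpoly.map f := by
    rw [hB', Matrix.charpoly_map]
  -- the polynomials
  let R : Multiset L := B'.charpoly.roots
  let H : L[X] := (R.map fun y => X - C (y ^ k)).prod
  let G : L[X] := (R.map fun y => X ^ k - C (y ^ k)).prod
  have hGH : G = H.comp (X ^ k) := by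
    simp only [G, H]
    rw [Polynomial.multiset_prod_comp, Multiset.map_map]
    congr 1
    refine Multiset.map_congr rfl fun y _ => ?_
    simp
  have hBG : aeval B' G = 0 := by
    have hsplit : B'.charpoly = (R.map fun y => X - C y).prod := by
      have h1 := (IsAlgClosed.splits B'.charpoly)
      have h2 := h1.eq_prod_roots_of_monic (Matrix.charpoly_monic B')
      exact h2
    have hdvd : B'.charpoly ∣ G := by
      rw [hsplit]
      apply Multiset.prod_dvd_prod_of_dvd
      intro y _
      have := sub_dvd_pow_sub_pow (X : L[X]) (C y) k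
      rwa [← C_pow] at this
    obtain ⟨q, hq⟩ := hdvd
    rw [hq, map_mul, Matrix.aeval_self_charpoly, zero_mul]
  have hcop : IsCoprime A'.charpoly G := by
    rw [Polynomial.isCoprime_iff_aeval_ne_zero_of_isAlgClosed L L]
    intro a
    by_contra hcon
    push Not at hcon
    obtain ⟨h1, h2⟩ := hcon
    have h3 : ∃ y ∈ R, a ^ k = y ^ k := by
      simp only [G] at h2
      rw [map_multiset_prod, Multiset.prod_eq_zero_iff, Multiset.map_map, Multiset.mem_map] at h2
      obtain ⟨y, hy, hy2⟩ := h2
      refine ⟨y, hy, ?_⟩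
      simp only [Function.comp, map_sub, map_pow, aeval_X, aeval_C] at hy2
      simpa [sub_eq_zero] using hy2
    obtain ⟨y, hy, hyk⟩ := h3
    refine h a y ?_ ?_ hyk
    · rw [hcA] at h1
      rwa [aeval_map_algebraMap] at h1
    · have h4 := (mem_roots'.1 hy).2
      rw [IsRoot.def, hcB, eval_map] at h4
      exact h4
  have hcomm : Z' * aeval A' G = aeval B' G * Z' := by
    have h1 : ∀ p : L[X], Z' * aeval (A' ^ k) p = aeval (B' ^ k) p * Z' := by
      intro p
      induction p using Polynomial.induction_on with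
      | C r =>
        simp [Algebra.algebraMap_eq_smul_one]
      | add p q hp hq =>
        rw [map_add, map_add, Matrix.mul_add, Matrix.add_mul, hp, hq]
      | monomial j r hp =>
        have e1 : ∀ {d : ℕ} (M : Matrix (Fin d) (Fin d) L),
            aeval M (C r * X ^ (j + 1) : L[X]) = aeval M (C r * X ^ j : L[X]) * M := by
          intro d M
          rw [map_mul, map_mul, map_pow, map_pow, aeval_X, pow_succ, mul_assoc]
        rw [e1, e1, ← Matrix.mul_assoc, hp, Matrix.mul_assoc, hZk, ← Matrix.mul_assoc]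
    have h2 := h1 H
    rw [hGH, aeval_comp, aeval_comp, map_pow, aeval_X, map_pow, aeval_X]
    exact h2
  obtain ⟨u, v, huv⟩ := hcop
  have h5 : Z' = 0 := by
    have h6 := congrArg (aeval A') huv
    rw [map_add, map_mul, map_mul, Matrix.aeval_self_charpoly, mul_zero, zero_add, map_one] at h6
    have h7 : aeval A' v * aeval A' G = aeval A' G * aeval A' v := by
      rw [← map_mul, ← map_mul, mul_comm]
    calc Z' = Z' * (1 : Matrix (Fin m) (Fin m) L) := by rw [Matrix.mul_one]
      _ = Z' * (aeval A' G * aeval A' v) := by rw [← h7, h6]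
      _ = (aeval B' G * Z') * aeval A' v := by rw [← Matrix.mul_assoc, hcomm]
      _ = 0 := by rw [hBG, Matrix.zero_mul, Matrix.zero_mul]
  ext i j
  have h8 := congrFun (congrFun h5 i) j
  rw [hZ', Matrix.map_apply, Matrix.zero_apply] at h8
  rw [Matrix.zero_apply]
  exact (map_eq_zero_iff f f.injective).1 h8

/-- Sets with at most `b` elements below every bound have density zero. -/
theorem density_finite (b : ℕ) : Tendsto (fun n : ℕ =>
    (Nat.card {ℓ : ℕ // ℓ ≤ n ∧ ℓ ∈ {ℓ : ℕ | ℓ ≤ b}} : ℝ) / (Nat.primeCounting n : ℝ)) atTop (𝓝 0) := by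
  have h1 : Tendsto (fun n : ℕ => ((b : ℝ) + 1) / (Nat.primeCounting n : ℝ)) atTop (𝓝 0) := by
    refine Tendsto.const_div_atTop ?_ _
    exact tendsto_natCast_atTop_atTop.comp Nat.tendsto_primeCounting
  refine squeeze_zero (fun n => by positivity) (fun n => ?_) h1
  apply div_le_div_of_nonneg_right _ (Nat.cast_nonneg _)
  have h2 : Nat.card {ℓ : ℕ // ℓ ≤ n ∧ ℓ ∈ {ℓ : ℕ | ℓ ≤ b}} ≤ Nat.card (Fin (b + 1)) :=
    Nat.card_le_card_of_injective (fun x => (⟨x.1, Nat.lt_succ_of_le x.2.2⟩ : Fin (b + 1)))
      (fun x y h => by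
        apply Subtype.ext
        exact congrArg (fun z : Fin (b + 1) => z.1) h)
  rw [Nat.card_fin] at h2
  exact_mod_cast h2

end Pool.Agent.X274.TH
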